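import Pool.Agent.H59.L.S8.TH876.KR.Main
import Pool.Agent.H59.L.S8.Y96.SumBig

set_option autoImplicit false

/-!
# Light points of a family of sets of primes over a number field
-/

namespace Pool.Agent.Y492

open Finset NumberField IsDedekindDomain Pool.Agent.H691R3 Pool.Agent.TH876.Loc
open Pool.Agent.TH876.KR (Light Sc rho rho_gt scales card_light dK_nn)

theorem fam_lightK (K : Type) [Field K] [NumberField K] {k : ℕ} (hk : 3 ≤ k) (κh : ℕ) :
    ∃ D : ℝ, 0 < D ∧ ∃ X0 : ℝ, 16 ≤ X0 ∧ ∀ X : ℝ, X0 ≤ X →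
    ∀ W : Finset (Finset (Pr K)), (∀ S ∈ W, nn S ≤ X ^ 2) →
    ∀ F : Finset K, (∀ x ∈ F, Pt x ∧ Real.log X ≤ hgt x ∧ hgt x ≤ Real.exp (Real.log X ^ κh) ∧
      ∃ S ∈ W, Light k S x) →
    (F.card : ℝ) ≤ D * W.card * X ^ (2 / (k : ℝ)) := by
  classical
  have hk1 : 1 ≤ k := by omega
  have hk0 : (0:ℝ) < k := by exact_mod_cast hk1
  obtain ⟨X1, hX1, hom⟩ := Pool.Agent.Y96.omegaK K
  obtain ⟨r, hr⟩ : ∃ r, r = Fintype.card (InfinitePlace K) := ⟨_, rfl⟩
  obtain ⟨d, hd⟩ : ∃ d : ℝ, d = dK K * Real.log 2 := ⟨_, rfl⟩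
  have hρ := rho_gt hk1
  have hρ0 : 0 < rho k := by linarith
  have hlρ : 0 < Real.log (rho k) := Real.log_pos hρ
  -- powers of the logarithm
  obtain ⟨D2, hD2, hpow⟩ : ∃ D2 : ℝ, 0 < D2 ∧ ∀ X : ℝ, 1 ≤ X →
      Real.log X ^ κh ≤ D2 * X ^ (1 / (k : ℝ)) := by
    refine ⟨(((κh : ℝ) + 1) * k) ^ κh, by positivity, ?_⟩
    intro X hX
    have hX0 : 0 < X := by linarith
    have a1 : Real.log X ≤ X ^ (1 / (((κh : ℝ) + 1) * k)) / (1 / (((κh : ℝ) + 1) * k)) :=
      Real.log_le_rpow_div hX0.le (by positivity)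
    have a2 : X ^ (1 / (((κh : ℝ) + 1) * k)) / (1 / (((κh : ℝ) + 1) * k)) =
        (((κh : ℝ) + 1) * k) * X ^ (1 / (((κh : ℝ) + 1) * k)) := by
      field_simp
    rw [a2] at a1
    refine (pow_le_pow_left₀ (Real.log_nonneg hX) a1 _).trans ?_
    rw [mul_pow, ← Real.rpow_natCast (X ^ (1 / (((κh : ℝ) + 1) * k))), ← Real.rpow_mul hX0.le]
    refine mul_le_mul_of_nonneg_left (Real.rpow_le_rpow_of_exponent_le hX ?_) (by positivity)
    rw [one_div_mul_eq_div, div_le_div_iff₀ (by positivity) hk0]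
    nlinarith
  -- the constants
  obtain ⟨L0, hL0⟩ : ∃ L0 : ℝ, L0 = max (Real.exp (594 * k ^ 2)) (4 * k * d + 1) := ⟨_, rfl⟩
  refine ⟨(1 / Real.log (rho k) + 1) * D2 * 2 ^ (99 * k * r), by positivity,
    max X1 (Real.exp L0), hX1.trans (le_max_left _ _), ?_⟩
  intro X hX W hW F hF
  have hXX1 : X1 ≤ X := (le_max_left _ _).trans hX
  have hXe : Real.exp L0 ≤ X := (le_max_right _ _).trans hX
  have hX16 : 16 ≤ X := hX1.trans hXX1
  have hX0 : 0 < X := by linarith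
  have hX1' : 1 ≤ X := by linarith
  obtain ⟨L, hL⟩ : ∃ L, L = Real.log X := ⟨_, rfl⟩
  have hLL0 : L0 ≤ L := by rw [hL, Real.le_log_iff_exp_le hX0]; exact hXe
  have hLe : Real.exp (594 * k ^ 2) ≤ L := by
    refine le_trans ?_ hLL0
    rw [hL0]; exact le_max_left _ _
  have hLd : 4 * k * d < L := by
    have : 4 * k * d + 1 ≤ L0 := by rw [hL0]; exact le_max_right _ _
    linarith
  have hL1 : 1 ≤ L := by
    refine le_trans ?_ hLe
    exact Real.one_le_exp (by positivity)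
  have hLpos : 0 < L := by linarith
  rw [← hL] at hF
  -- the number of primes
  have hcardS : ∀ S ∈ W, ((2:ℕ) ^ (99 * k * (Spl S).card) : ℝ) ≤
      2 ^ (99 * k * r) * X ^ (1 / (k : ℝ)) := by
    intro S hS
    rw [card_Spl, ← hr, mul_add, pow_add]
    push_cast
    refine mul_le_mul_of_nonneg_left ?_ (by positivity)
    have h1 : X1 ≤ X ^ 2 := by nlinarith
    have h2 := hom (X ^ 2) h1 S (hW S hS)
    rw [Real.log_pow, ← hL] at h2
    push_cast at h2
    have h3 : 594 * (k:ℝ) ^ 2 ≤ Real.log (2 * L) := by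
      rw [Real.le_log_iff_exp_le (by positivity)]
      linarith
    have h3' : 0 < Real.log (2 * L) := lt_of_lt_of_le (by positivity) h3
    have h4 : (S.card : ℝ) * (99 * k ^ 2) ≤ L := by
      have h5 : 3 * (2 * L) / Real.log (2 * L) * (99 * k ^ 2) ≤ L := by
        rw [div_mul_eq_mul_div, div_le_iff₀ h3']
        nlinarith
      exact (mul_le_mul_of_nonneg_right h2 (by positivity)).trans h5
    rw [← Real.rpow_natCast, ← Real.log_le_log_iff (by positivity) (by positivity),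
      Real.log_rpow (by norm_num), Real.log_rpow hX0, ← hL]
    have h6 : Real.log 2 ≤ 1 := by linarith [Real.log_two_lt_d9]
    have h7 : (0:ℝ) ≤ Real.log 2 := by linarith [Real.log_two_gt_d9]
    push_cast
    calc 99 * (k:ℝ) * S.card * Real.log 2 ≤ 99 * (k:ℝ) * S.card * 1 :=
          mul_le_mul_of_nonneg_left h6 (by positivity)
      _ = 1 / k * (S.card * (99 * k ^ 2)) := by field_simp
      _ ≤ 1 / k * L := mul_le_mul_of_nonneg_left h4 (by positivity)
  -- the scales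
  rcases le_or_gt L (Real.exp (L ^ κh)) with hH | hH
  swap
  · have hF0 : F = ∅ := by
      rw [Finset.eq_empty_iff_forall_notMem]
      intro x hx
      obtain ⟨_, h2, h3, _⟩ := hF x hx
      linarith
    rw [hF0, Finset.card_empty, Nat.cast_zero]
    positivity
  obtain ⟨J, hJ, hcard⟩ := scales hk1 hLpos hH F (fun x hx => ⟨(hF x hx).2.1, (hF x hx).2.2.1⟩)
  have hJ1 : (J : ℝ) + 1 ≤ (1 / Real.log (rho k) + 1) * (D2 * X ^ (1 / (k : ℝ))) := by
    have h1 : rho k ^ J ≤ Real.exp (L ^ κh) :=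
      (le_mul_of_one_le_left (by positivity) hL1).trans hJ
    have h2 : (J : ℝ) * Real.log (rho k) ≤ L ^ κh := by
      rw [← Real.log_pow]
      exact (Real.log_le_iff_le_exp (by positivity)).2 h1
    have h3 : (J : ℝ) ≤ 1 / Real.log (rho k) * L ^ κh := by
      rw [one_div_mul_eq_div, le_div_iff₀ hlρ]
      exact h2
    have h4 : (1:ℝ) ≤ L ^ κh := one_le_pow₀ hL1
    have h5 := hpow X hX1'
    rw [← hL] at h5
    calc (J : ℝ) + 1 ≤ (1 / Real.log (rho k) + 1) * L ^ κh := by linarith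
      _ ≤ _ := mul_le_mul_of_nonneg_left h5 (by positivity)
  have hsc : ∀ j ∈ Finset.range (J + 1),
      ((F.filter fun x => Sc k (L * rho k ^ j) x).card : ℝ) ≤
        W.card * (2 ^ (99 * k * r) * X ^ (1 / (k : ℝ))) := by
    intro j _
    have h1 : (F.filter fun x => Sc k (L * rho k ^ j) x) ⊆
        W.biUnion (fun S => F.filter fun x => Sc k (L * rho k ^ j) x ∧ Light k S x) := by
      intro x hx
      obtain ⟨hx1, hx2⟩ := Finset.mem_filter.1 hx
      obtain ⟨S, hS, hl⟩ := (hF x hx1).2.2.2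
      exact Finset.mem_biUnion.2 ⟨S, hS, Finset.mem_filter.2 ⟨hx1, hx2, hl⟩⟩
    have h2 : (F.filter fun x => Sc k (L * rho k ^ j) x).card ≤
        ∑ S ∈ W, 2 ^ (99 * k * (Spl S).card) := by
      refine (Finset.card_le_card h1).trans (Finset.card_biUnion_le.trans
        (Finset.sum_le_sum fun S _ => ?_))
      refine card_light hk1 (l := L * rho k ^ j) ?_ _ ?_
      · rw [← hd]
        exact lt_of_lt_of_le hLd (le_mul_of_one_le_right hLpos.le (one_le_pow₀ hρ.le))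
      · intro x hx
        obtain ⟨hx1, hx2, hx3⟩ := Finset.mem_filter.1 hx
        exact ⟨(hF x hx1).1, hx2, hx3⟩
    have h3 : ((F.filter fun x => Sc k (L * rho k ^ j) x).card : ℝ) ≤
        ((∑ S ∈ W, 2 ^ (99 * k * (Spl S).card) : ℕ) : ℝ) := by exact_mod_cast h2
    refine h3.trans ?_
    rw [Nat.cast_sum]
    refine (Finset.sum_le_sum fun S hS => ?_).trans (le_of_eq ?_) (b :=
      ∑ _S ∈ W, (2 ^ (99 * k * r) * X ^ (1 / (k : ℝ)) : ℝ))
    · have := hcardS S hS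
      push_cast at this ⊢
      exact this
    · rw [Finset.sum_const, nsmul_eq_mul]
  have hXk : X ^ (1 / (k : ℝ)) * X ^ (1 / (k : ℝ)) = X ^ (2 / (k : ℝ)) := by
    rw [← Real.rpow_add hX0]
    congr 1
    ring
  have hc1 : (F.card : ℝ) ≤ ∑ j ∈ Finset.range (J + 1),
      ((F.filter fun x => Sc k (L * rho k ^ j) x).card : ℝ) := by exact_mod_cast hcard
  calc (F.card : ℝ) ≤ ∑ j ∈ Finset.range (J + 1),
      ((F.filter fun x => Sc k (L * rho k ^ j) x).card : ℝ) := hc1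
    _ ≤ ∑ _j ∈ Finset.range (J + 1), (W.card * (2 ^ (99 * k * r) * X ^ (1 / (k : ℝ))) : ℝ) :=
        Finset.sum_le_sum hsc
    _ = ((J : ℝ) + 1) * (W.card * (2 ^ (99 * k * r) * X ^ (1 / (k : ℝ)))) := by
        rw [Finset.sum_const, Finset.card_range, nsmul_eq_mul]
        push_cast
        ring
    _ ≤ ((1 / Real.log (rho k) + 1) * (D2 * X ^ (1 / (k : ℝ)))) *
          (W.card * (2 ^ (99 * k * r) * X ^ (1 / (k : ℝ)))) :=
        mul_le_mul_of_nonneg_right hJ1 (by positivity)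
    _ = (1 / Real.log (rho k) + 1) * D2 * 2 ^ (99 * k * r) * W.card *
          (X ^ (1 / (k : ℝ)) * X ^ (1 / (k : ℝ))) := by ring
    _ = _ := by rw [hXk]

end Pool.Agent.Y492
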